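import Pool.Agent.H829R2.RQ.T_WID
import Pool.Agent.H829R2.RQ.T_HDF
import Pool.Agent.H829R2.RQ.T_PRF
import Pool.Agent.H829R2.RQ.T_HYP
import Pool.Agent.H829R2.RQ.T_STA
import Pool.Agent.H829R2.RQ.T_STB
import Pool.Agent.H829R2.RQ.T_STP
import Pool.Agent.H829R2.RQ.T_STF
import Pool.Agent.H829R2.RQ.T_STD
import Pool.Agent.H829R2.RQ.T_MIN
import Pool.Agent.H829R2.RQ.T_SYM
import Pool.Agent.H829R2.RQ.T_FIN
import Pool.Agent.H829R2.RQ.T_BAL
import Pool.Agent.H829R2.RQ.T_POL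
import Pool.Agent.H829R2.RQ.T_WCO
import Pool.Agent.H829R2.RQ.T_RIG
import Pool.Agent.H829R2.RQ.T_ISO
import Pool.Agent.H829R2.RQ.T_BLL

/-!
# Equality in the reflection hull inequality holds only for balls

The definitions are those of the file `ReflectionHull` of this folder. For `1 ≤ i < d` a convex
body `K` of `ℝ^d` has `c_i(K) = 1 + 2 κ_{d-1} / κ_d` if and only if `K` is a Euclidean ball.
-/

set_option autoImplicit false

open Metric
open Pool.Agent.Results.MP_036dc9_gt.ReflectionHull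

namespace Pool.Agent.Results.MP_036dc9_gt.OnlyBalls

open H829RQ in
theorem main : S_MAIN := by
  have hWID : S_WID := t_WID
  have hHDF : S_HDF := t_HDF
  have hPRF : S_PRF := t_PRF
  have hHYP : S_HYP := t_HYP hWID hHDF hPRF
  have hSTA : S_STA := t_STA
  have hSTB : S_STB := t_STB
  have hSTP : S_STP := t_STP
  have hSTF : S_STF := t_STF hSTP hPRF
  have hSTD : S_STD := t_STD
  have hMIN : S_MIN := t_MIN hPRF
  have hSYM : S_SYM := t_SYM hSTA hSTF hSTD
  have hFIN : S_FIN := t_FIN hMIN hSYM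
  have hBAL : S_BAL := t_BAL
  have hPOL : S_POL := t_POL hHDF
  have hWCO : S_WCO := t_WCO hHDF hPRF hFIN hBAL hPOL
  have hRIG : S_RIG := t_RIG
  have hISO : S_ISO := t_ISO hSTA hSTB hRIG
  have hBLL : S_BLL := t_BLL hBAL
  exact t_MAIN hHDF hHYP hWCO hISO hBLL

/-- For `1 ≤ i < d`, a convex body `K` of `ℝ^d` satisfies `c_i(K) = 1 + 2 κ_{d-1} / κ_d` if and
only if it is a Euclidean ball. -/
theorem result (d i : ℕ) (hi1 : 1 ≤ i) (hi : i < d) (K : Set (EuclideanSpace ℝ (Fin d)))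
    (hconv : Convex ℝ K) (hcomp : IsCompact K) (hint : (interior K).Nonempty) :
    cRatio i K = 1 + 2 * kappa (d - 1) / kappa d ↔
      ∃ (c : EuclideanSpace ℝ (Fin d)) (r : ℝ), 0 < r ∧ K = closedBall c r :=
  main d i hi1 hi K hconv hcomp hint

end Pool.Agent.Results.MP_036dc9_gt.OnlyBalls
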